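import Mathlib
import Pool.Agent.H15.MCF.Final
import Pool.Agent.H15.MCF.Glue

/-!
# The conjecture of Gu and Xu on mean curvature flow under sectional curvature pinching is false

The statement is for `n = 2`, `q = 1`, `c = 1`: there is a smooth immersion `F₀` of the two-sphere
into the unit sphere of `ℝ⁴` with positive sectional curvature such that every smooth solution of
mean curvature flow starting from `F₀` exists at most until time one, and all its images have
diameter at least one.  So neither `T = ∞`, nor does the flow shrink to a point.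
-/

namespace Pool.Agent.Results.MP_be3d74_gt.Counterexample

open Pool.Agent.H15.MCF

theorem result : ∃ F₀ : Metric.sphere (0 : Euc 3) 1 → Euc (2 + 1 + 1),
    IsSphereImmersion 2 F₀ ∧ GuXuHypothesis 2 1 F₀ ∧
    (∀ (T : EReal) (F : ℝ → Metric.sphere (0 : Euc 3) 1 → Euc (2 + 1 + 1)),
      IsMCF 2 F₀ T F →
        T ≤ 1 ∧ ∀ t ∈ timeDomain T, 1 ≤ Metric.diam (Set.range (F t))) ∧
    ((∃ (T : EReal) (F : ℝ → Metric.sphere (0 : Euc 3) 1 → Euc (2 + 1 + 1)), IsMCF 2 F₀ T F) →
      ∃ (T : EReal) (F : ℝ → Metric.sphere (0 : Euc 3) 1 → Euc (2 + 1 + 1)),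
        IsUniqueMaximalMCF 2 F₀ T F) ∧
    ¬ WeakGuXuConclusion 2 F₀ := by
  have hδ : (0 : ℝ) < 1 / 1000 := by norm_num
  have key : ∀ (T : EReal) (F : ℝ → Metric.sphere (0 : Euc 3) 1 → Euc (2 + 1 + 1)),
      IsMCF 2 (F0 (1 / 1000)) T F →
        T ≤ 1 ∧ ∀ t ∈ timeDomain T, 1 ≤ Metric.diam (Set.range (F t)) := by
    intro T F hF
    have hs : ∀ t ∈ timeDomain T, IsSymm (F t) := fun t ht => hF.isSymm (isSymm_F0 _) ht
    refine ⟨T_le_one hδ hF hs le_rfl, fun t ht => ?_⟩
    have h1 := poles_apart hδ hF hs le_rfl ht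
    have hc : Continuous (F t) := (hF.immersion t ht).smooth.continuous
    exact h1.trans (Metric.dist_le_diam_of_mem (isCompact_range hc).isBounded
      ⟨_, rfl⟩ ⟨_, rfl⟩)
  refine ⟨F0 (1 / 1000), immersion_F0 hδ, hypothesis_F0 hδ, key, exists_maximal, ?_⟩
  rintro ⟨T, F, hF, h⟩
  obtain ⟨hT, hd⟩ := key T F hF
  rcases h with ⟨-, p, hp⟩ | h
  · obtain ⟨t₀, ht₀, h⟩ := hp (1 / 4) (by norm_num)
    have h1 := h t₀ ht₀ le_rfl
    have h2 : Metric.diam (Set.range (F t₀)) ≤ 2 * (1 / 4) := by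
      apply Metric.diam_le_of_forall_dist_le (by norm_num)
      rintro _ ⟨x, rfl⟩ _ ⟨y, rfl⟩
      have h3 := h1 x
      have h4 := h1 y
      have h5 := dist_triangle_right (F t₀ x) (F t₀ y) p
      linarith
    have h3 := hd t₀ ht₀
    linarith
  · rw [h] at hT
    simp at hT
    exact absurd hT (by decide)

end Pool.Agent.Results.MP_be3d74_gt.Counterexample
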